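import Mathlib
import Pool.Agent.TH855.AB
import Pool.Agent.TH855.CF

set_option autoImplicit false

/-!
# `c(F) ≤ 1` for every almost bipartite graph `F`

Idea.  Let `G` be `K_{1,t,t}`-free of maximum degree `Δ`.  We count proper `q`-colourings (Rosenfeld's
method) and show that adding a vertex `v` multiplies the number of colourings by at least `ℓ`, a
small power of `Δ`.  For a colour `c`, recolour all neighbours of `v` of colour `c` by arbitrary
other colours from their lists of available colours; this gives an exact identity which expresses
the number of colourings in which `c` is available at `v` by weighted independence polynomials of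
subgraphs of the neighbourhood of `v` with weights `1 / (|L(u)| - 1)`.  These weights are tiny for
all but few neighbours (by induction the lists are long), and for tiny weights a graph without
`K_{t,t}` behaves like an empty graph: weighted Kővári–Sós–Turán shows that the mean of the
hard-core model is at least `(1 - o(1)) log Δ` once the partition function exceeds `Δ^(1 - o(1))`.
Summing over the colours closes the induction for `q = (1 + o(1)) Δ / log Δ`.
-/

namespace Pool.Agent.Results.MP_349e33_co.AlmostBipartite

open Pool.Agent.TH855 Pool.Agent.Helper311.Glue Classical
open scoped ENNReal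

/-- If deleting the vertex `x` makes the finite graph `F` bipartite, then `c(F) ≤ 1`. -/
theorem result {W : Type} [Fintype W] (F : SimpleGraph W) (x : W)
    (hF : (F.induce {y | y ≠ x}).Colorable 2) : c F ≤ 1 := by
  obtain ⟨C⟩ := hF
  have h1 : UpTo F 1 := by
    refine upTo_ab F x ⟨fun y => if h : y ≠ x then decide (C ⟨y, h⟩ = 0) else false, ?_⟩
    intro y z hyz hy hz h
    simp only [dif_pos hy, dif_pos hz, decide_eq_decide] at h
    have h2 : (F.induce {y | y ≠ x}).Adj ⟨y, hy⟩ ⟨z, hz⟩ := hyz
    have h3 := C.valid h2
    have key : ∀ a b : Fin 2, a ≠ b → ¬ (a = 0 ↔ b = 0) := by decide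
    exact key _ _ h3 h
  have h2 := c_le_of_upTo F 1 zero_le_one h1
  rwa [ENNReal.ofReal_one] at h2

end Pool.Agent.Results.MP_349e33_co.AlmostBipartite
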