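import Mathlib
import Pool.Agent.TH855.Multi
import Pool.Agent.TH855.CF

set_option autoImplicit false

/-!
# `c(F)` is finite for every 3-colourable graph `F`

Idea.  Let `a`, `b`, `t` be the sizes of the colour classes of `F`.  In a graph `G` without
`K_{a,b,t}` every copy of `K_{a,b}` has fewer than `t` common neighbours.  Split the vertices at
random into `K = Δ^(1 - 1/(a+b) + η)` parts.  A vertex is bad if it lies in a copy of `K_{a,b}` that
together with one of its common neighbours lies in one part.  High moments and the local lemma show
that there is a split in which every part has maximum degree at most `(1 + o(1)) Δ / K` and every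
vertex has at most `Δ^(1 - η/2)` bad neighbours.  The parts without their bad vertices contain no
`K_{1,a,b}`, so they can be coloured with `(1 + o(1)) (Δ / K) / log (Δ / K)` colours each by the
bound `c(K_{1,a,b}) ≤ 1`, and the bad vertices need only few extra colours.
-/

namespace Pool.Agent.Results.MP_349e33_co.ThreeColourable

open Pool.Agent.TH855 Classical
open scoped ENNReal

/-- If `C` is a proper colouring of the finite graph `F` with the colours `0`, `1`, `2` and `k ≥ 1`
vertices have a colour different from `2`, then `c(F) ≤ k`. -/
theorem result {W : Type} [Fintype W] (F : SimpleGraph W) (C : F.Coloring (Fin 3))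
    (h : ∃ w, C w ≠ 2) : c F ≤ (Fintype.card {w : W // C w ≠ 2} : ℝ≥0∞) := by
  have h1 : 1 ≤ Fintype.card {w : W // C w ≠ 2} := by
    obtain ⟨w, hw⟩ := h
    exact Fintype.card_pos_iff.2 ⟨⟨w, hw⟩⟩
  have h2 := c_le_of_upTo F _ (by positivity) (upTo_three F C (fun y z hyz => C.valid hyz) h1)
  rwa [ENNReal.ofReal_natCast] at h2

end Pool.Agent.Results.MP_349e33_co.ThreeColourable
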