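import Mathlib
import Pool.Agent.TH855.CBounds

set_option autoImplicit false

/-!
# `c(F)` and tree-like gluing along connected sets

Idea.  Let `F` be composed of pieces of `H`, glued along connected sets of at most `k` vertices.  In
a graph `G` consider partial copies `φ` of `H` on connected sets `R` of at most `k` vertices of `H`.
Such a `φ` is poor if all copies of `H` that extend it and have not yet been discarded can be hit
outside of `φ` by `|F|` vertices; then we remember these vertices and discard these copies.  If some
copies are never discarded one finds `F` in `G` greedily, piece by piece.  Otherwise every copy of
`H` contains some `φ` together with one of its at most `|F|` remembered vertices.  These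
configurations have at most `k + 1` vertices, and a random partition into `Δ^(1 - 1/k + o(1))` parts
(high moments, local lemma) makes almost all of them non-monochromatic around every vertex.
-/

namespace Pool.Agent.Results.MP_349e33_co.TreeGluing

open Pool.Agent.TH855 Classical
open scoped ENNReal

/-- If `H` is a finite connected graph with at least two vertices and the finite graph `F` is
composed of pieces of `H`, glued in a tree-like way along connected sets of at most `k ≥ 1`
vertices (`TreeGlued F H k`), then `c(F) ≤ k · c(H)`. -/
theorem result {W U : Type} [Fintype W] [Fintype U] (F : SimpleGraph W) (H : SimpleGraph U)
    (k : ℕ) (hH : H.Connected) (hU : 1 < Fintype.card U) (hk : 1 ≤ k) (hF : TreeGlued F H k) :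
    c F ≤ k * c H :=
  treeGlued_bound F H k hH hU hk hF

end Pool.Agent.Results.MP_349e33_co.TreeGluing
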