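import Mathlib
import Pool.Agent.TH855.CBounds

set_option autoImplicit false

/-!
# `c(F) ≤ 2` for every graph `F` of treewidth at most two

Graphs of treewidth at most two are composed of triangles, glued in a tree-like way along edges and
vertices (and disjoint unions).  Such a graph `F` can be found greedily in every graph with a family
of triangles that is rich: no edge of a triangle of the family has its third vertices hit by `|F|`
vertices.  In an `F`-free graph every triangle therefore contains an edge or a vertex together with
one of at most `|F|` vertices that are assigned to it.  A random partition into `Δ^(1/2 + o(1))`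
parts (high moments, local lemma) separates almost all of these configurations, the rest of each
part is triangle-free, and `c(K_3) ≤ 1` gives the bound.
-/

namespace Pool.Agent.Results.MP_349e33_co.TreewidthTwo

open Pool.Agent.TH855 Classical
open scoped ENNReal

/-- If the finite graph `F` has treewidth at most `2` then `c(F) ≤ 2`. -/
theorem result {W : Type} [Fintype W] (F : SimpleGraph W) (hF : TreewidthLe F 2) : c F ≤ 2 := by
  have h1 := treewidth_bound F 2 (by omega) hF
  refine h1.trans ?_
  calc ((2 : ℕ) : ℝ≥0∞) * c (⊤ : SimpleGraph (Fin (2 + 1))) ≤ (2 : ℕ) * 1 :=
        mul_le_mul_right c_triangle_le_one _
    _ = 2 := by norm_num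

end Pool.Agent.Results.MP_349e33_co.TreewidthTwo
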